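import Pool.Agent.Helper21.FL.Defs

/-! # FL-5: topological generators (Frattini argument) -/

open NumberField IsLocalRing

namespace Pool.Agent.Helper21.FL

/-- a proper subgroup of a finite `p`-group lies in a subgroup of index `p` -/
theorem gen_exists_index {P : Type*} [Group P] [Finite P] (p : ℕ) [Fact p.Prime] {m : ℕ}
    (hP : Nat.card P = p ^ m) (A : Subgroup P) (hA : A ≠ ⊤) :
    ∃ K : Subgroup P, A ≤ K ∧ K.index = p := by
  have hp := (Fact.out : p.Prime)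
  have hdvd : Nat.card A ∣ p ^ m := hP ▸ Subgroup.card_subgroup_dvd_card A
  obtain ⟨n, hn, hAn⟩ := (Nat.dvd_prime_pow hp).1 hdvd
  have hnm : n < m := by
    rcases hn.lt_or_eq with h | h
    · exact h
    · exfalso
      apply hA
      apply Subgroup.eq_top_of_card_eq
      rw [hAn, hP, h]
  obtain ⟨K, hK, hAK⟩ := Sylow.exists_subgroup_card_pow_prime_le p (n := n) (m := m - 1)
    (by rw [hP]; exact pow_dvd_pow p (Nat.sub_le m 1)) A hAn (by omega)
  refine ⟨K, hAK, ?_⟩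
  have h1 := K.index_mul_card
  rw [hK, hP] at h1
  have h2 : K.index * p ^ (m - 1) = p * p ^ (m - 1) := by
    rw [h1, ← pow_succ']
    congr 1
    omega
  exact Nat.eq_of_mul_eq_mul_right (pow_pos hp.pos _) h2

theorem gen_finite_above {G : Type*} [Group G] (V : Subgroup G) [V.Normal] [V.FiniteIndex] :
    {U : Subgroup G | V ≤ U}.Finite := by
  have hf : Finite (Subgroup (G ⧸ V)) :=
    Finite.of_injective (fun H : Subgroup (G ⧸ V) => (H : Set (G ⧸ V))) SetLike.coe_injective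
  refine Set.Finite.of_finite_image (f := fun U : Subgroup G => U.map (QuotientGroup.mk' V))
    (Set.toFinite _) ?_
  intro U hU U' hU' h
  have h1 := congrArg (fun W : Subgroup (G ⧸ V) => W.comap (QuotientGroup.mk' V)) h
  simp only [Subgroup.comap_map_eq, QuotientGroup.ker_mk'] at h1
  rw [sup_eq_left.2 hU, sup_eq_left.2 hU'] at h1
  exact h1

theorem gen_core_index {G : Type*} [Group G] (U : Subgroup G) [U.FiniteIndex] :
    U.normalCore.index ≤ (U.index).factorial := by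
  rw [Subgroup.normalCore_eq_ker, Subgroup.index_ker]
  have h1 : Nat.card (Equiv.Perm (G ⧸ U)) = (U.index).factorial := by
    rw [Nat.card_perm]; rfl
  rw [← h1]
  exact Subgroup.card_le_card_group _

/-- the group theoretic step -/
theorem gen_step {G : Type*} [Group G] (H V Y : Subgroup G) [V.Normal] [V.FiniteIndex] (hVH : V ≤ H)
    (hVY : V ≤ Y) (p : ℕ) [Fact p.Prime] {m : ℕ} (hm : V.relIndex H = p ^ m) (hY : ¬ H ≤ Y) :
    ∃ U : Subgroup G, V ≤ U ∧ U ≤ H ∧ U.relIndex H = p ∧ Y ⊓ H ≤ U := by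
  have hn : (V.subgroupOf H).Normal := inferInstance
  have hfin : Finite (H ⧸ V.subgroupOf H) := by
    have : (V.subgroupOf H).FiniteIndex := inferInstance
    infer_instance
  have hcard : Nat.card (H ⧸ V.subgroupOf H) = p ^ m := hm
  set π := QuotientGroup.mk' (V.subgroupOf H) with hπ
  have hπs : Function.Surjective π := QuotientGroup.mk'_surjective _
  have hA : (Y.subgroupOf H).map π ≠ ⊤ := by
    intro h
    apply hY
    have h1 := congrArg (fun W : Subgroup (H ⧸ V.subgroupOf H) => W.comap π) h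
    simp only [Subgroup.comap_map_eq, Subgroup.comap_top] at h1
    rw [hπ, QuotientGroup.ker_mk'] at h1
    have h2 : V.subgroupOf H ≤ Y.subgroupOf H := by
      intro x hx
      exact hVY hx
    rw [sup_eq_left.2 h2] at h1
    intro x hx
    have : (⟨x, hx⟩ : H) ∈ Y.subgroupOf H := by rw [h1]; trivial
    exact this
  obtain ⟨K, hAK, hK⟩ := gen_exists_index p hcard _ hA
  refine ⟨(K.comap π).map H.subtype, ?_, ?_, ?_, ?_⟩
  · intro x hx
    refine ⟨⟨x, hVH hx⟩, ?_, rfl⟩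
    have : π ⟨x, hVH hx⟩ = 1 := by
      rw [hπ, QuotientGroup.mk'_apply, QuotientGroup.eq_one_iff]
      exact hx
    show π ⟨x, hVH hx⟩ ∈ K
    rw [this]
    exact K.one_mem
  · rintro x ⟨y, _, rfl⟩
    exact y.2
  · have h1 : ((K.comap π).map H.subtype).subgroupOf H = K.comap π := by
      rw [Subgroup.subgroupOf, Subgroup.comap_map_eq_self_of_injective (Subgroup.subtype_injective H)]
    rw [Subgroup.relIndex, h1, Subgroup.index_comap_of_surjective _ hπs, hK]
  · rintro x ⟨hx1, hx2⟩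
    refine ⟨⟨x, hx2⟩, ?_, rfl⟩
    exact hAK ⟨⟨x, hx2⟩, hx1, rfl⟩

theorem exists_generators {G : Type*} [Group G] (𝒱 : Set (Subgroup G))
    (hN : ∀ V ∈ 𝒱, V.Normal) (hfi : ∀ V ∈ 𝒱, V.FiniteIndex)
    (hinf : ∀ V ∈ 𝒱, ∀ W ∈ 𝒱, V ⊓ W ∈ 𝒱)
    (hup : ∀ V ∈ 𝒱, ∀ W : Subgroup G, W.Normal → V ≤ W → W ∈ 𝒱)
    (hM : ∀ d : ℕ, {V | V ∈ 𝒱 ∧ V.index ≤ d}.Finite)
    (H : Subgroup G) (hH : H ∈ 𝒱) (p : ℕ) [Fact p.Prime]
    (hp : ∀ V ∈ 𝒱, V ≤ H → ∃ m : ℕ, V.relIndex H = p ^ m) :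
    ∃ X : Finset G, ∀ V ∈ 𝒱, Subgroup.closure (X : Set G) ⊔ V = ⊤ := by
  classical
  have hprime := (Fact.out : p.Prime)
  -- representatives of G / H
  have hHfi := hfi H hH
  have hfinGH : Finite (G ⧸ H) := inferInstance
  obtain ⟨X₁, hX₁⟩ : ∃ X₁ : Finset G, ∀ g : G, ∃ x ∈ X₁, x⁻¹ * g ∈ H := by
    have := Fintype.ofFinite (G ⧸ H)
    refine ⟨Finset.univ.image (fun q : G ⧸ H => q.out), fun g => ?_⟩
    refine ⟨(QuotientGroup.mk g : G ⧸ H).out, Finset.mem_image_of_mem _ (Finset.mem_univ _), ?_⟩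
    rw [← QuotientGroup.eq, QuotientGroup.out_eq']
  -- the finite set of subgroups of index p
  have hU : {U : Subgroup G | U ≤ H ∧ U.relIndex H = p ∧ ∃ V ∈ 𝒱, V ≤ U}.Finite := by
    have h1 : {U : Subgroup G | U ≤ H ∧ U.relIndex H = p ∧ ∃ V ∈ 𝒱, V ≤ U} ⊆
        ⋃ V ∈ {V | V ∈ 𝒱 ∧ V.index ≤ (p * H.index).factorial}, {U : Subgroup G | V ≤ U} := by
      rintro U ⟨hUH, hUp, V, hV, hVU⟩
      have hUi : U.index = p * H.index := by
        rw [← Subgroup.relIndex_mul_index hUH, hUp]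
      have hUfi : U.FiniteIndex := ⟨by
        rw [hUi]
        exact Nat.mul_ne_zero hprime.ne_zero hHfi.index_ne_zero⟩
      have hVn := hN V hV
      have hcore : U.normalCore ∈ 𝒱 :=
        hup V hV _ inferInstance (Subgroup.normal_le_normalCore.2 hVU)
      simp only [Set.mem_iUnion]
      refine ⟨U.normalCore, ⟨hcore, ?_⟩, U.normalCore_le⟩
      rw [← hUi]
      exact gen_core_index U
    refine Set.Finite.subset ?_ h1
    refine Set.Finite.biUnion (hM _) ?_
    rintro V ⟨hV, _⟩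
    have := hN V hV
    have := hfi V hV
    exact gen_finite_above V
  -- choose the elements
  have hx : ∀ U : Subgroup G, U ∈ {U : Subgroup G | U ≤ H ∧ U.relIndex H = p ∧ ∃ V ∈ 𝒱, V ≤ U} →
      ∃ x : G, x ∈ H ∧ x ∉ U := by
    rintro U ⟨hUH, hUp, _⟩
    by_contra hcon
    push Not at hcon
    have h1 : U.relIndex H = 1 := Subgroup.relIndex_eq_one.2 hcon
    rw [hUp] at h1
    exact hprime.one_lt.ne' h1
  choose! x hx using hx
  refine ⟨X₁ ∪ hU.toFinset.image x, fun V hV => ?_⟩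
  set X := X₁ ∪ hU.toFinset.image x with hX
  -- replace V by V ⊓ H
  have hV' : V ⊓ H ∈ 𝒱 := hinf V hV H hH
  suffices h : Subgroup.closure (X : Set G) ⊔ (V ⊓ H) = ⊤ by
    rw [eq_top_iff, ← h]
    exact sup_le_sup_left inf_le_left _
  obtain ⟨m, hm⟩ := hp (V ⊓ H) hV' inf_le_right
  have hVn := hN _ hV'
  have hVf := hfi _ hV'
  set Y := Subgroup.closure (X : Set G) ⊔ (V ⊓ H) with hY
  have hXY : ∀ g ∈ X, g ∈ Y := fun g hg =>
    (le_sup_left : Subgroup.closure (X : Set G) ≤ Y) (Subgroup.subset_closure hg)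
  have hHY : H ≤ Y := by
    by_contra hcon
    obtain ⟨U, h1, h2, h3, h4⟩ := gen_step H (V ⊓ H) Y inf_le_right le_sup_right p hm hcon
    have hUm : U ∈ {U : Subgroup G | U ≤ H ∧ U.relIndex H = p ∧ ∃ V ∈ 𝒱, V ≤ U} :=
      ⟨h2, h3, _, hV', h1⟩
    have h5 := hx U hUm
    apply h5.2
    apply h4
    refine ⟨hXY _ ?_, h5.1⟩
    rw [hX]
    exact Finset.mem_union_right _ (Finset.mem_image_of_mem _ (hU.mem_toFinset.2 hUm))
  rw [eq_top_iff]
  intro g _
  obtain ⟨y, hy, hyg⟩ := hX₁ g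
  have h1 : y ∈ Y := hXY y (by rw [hX]; exact Finset.mem_union_left _ hy)
  have h2 := Y.mul_mem h1 (hHY hyg)
  rwa [mul_inv_cancel_left] at h2

end Pool.Agent.Helper21.FL
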